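import Pool.Agent.Lib.MP_acafa7_al.F.H65.Dst

/-! CON (6.1): almost fixed points are joined by few jumps, from CONA by counting. -/

namespace MSG.F65

open Classical

variable {V : Type} {G : SimpleGraph V}

/-- shortest chains -/
theorem short_chain (P : ℕ → ℕ → Prop) (l : ℕ) (h : ∀ i, i < l → P i (i + 1)) :
    ∃ (N : ℕ) (f : ℕ → ℕ), f 0 = 0 ∧ f N = l ∧ (∀ i, i ≤ N → f i ≤ l) ∧
      (∀ i, i < N → P (f i) (f (i + 1))) ∧ (∀ a b, a + 2 ≤ b → b ≤ N → ¬ P (f a) (f b)) ∧
      ∀ i, i < N → f i < l := by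
  have hex : ∃ N : ℕ, ∃ f : ℕ → ℕ, f 0 = 0 ∧ f N = l ∧ (∀ i, i ≤ N → f i ≤ l) ∧
      (∀ i, i < N → P (f i) (f (i + 1))) := ⟨l, id, rfl, rfl, fun i hi => hi, h⟩
  obtain ⟨f, h0, hN, hle, hP⟩ := Nat.find_spec hex
  have hmin : ∀ m, m < Nat.find hex → ¬ ∃ f : ℕ → ℕ, f 0 = 0 ∧ f m = l ∧ (∀ i, i ≤ m → f i ≤ l) ∧
      (∀ i, i < m → P (f i) (f (i + 1))) := fun m hm => Nat.find_min hex hm
  generalize Nat.find hex = N at hN hle hP hmin
  refine ⟨N, f, h0, hN, hle, hP, ?_, ?_⟩
  · intro a b hab hbN hPab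
    refine hmin (N - (b - a - 1)) (by omega) ⟨fun i => if i ≤ a then f i else f (i + (b - a - 1)),
      ?_, ?_, ?_, ?_⟩
    · show (if 0 ≤ a then f 0 else f (0 + (b - a - 1))) = 0
      rw [if_pos (Nat.zero_le a), h0]
    · show (if N - (b - a - 1) ≤ a then f (N - (b - a - 1)) else
        f (N - (b - a - 1) + (b - a - 1))) = l
      rw [if_neg (by omega)]
      have : N - (b - a - 1) + (b - a - 1) = N := by omega
      rw [this, hN]
    · intro i hi
      show (if i ≤ a then f i else f (i + (b - a - 1))) ≤ l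
      by_cases hia : i ≤ a
      · rw [if_pos hia]; exact hle i (by omega)
      · rw [if_neg hia]; exact hle _ (by omega)
    · intro i hi
      show P (if i ≤ a then f i else f (i + (b - a - 1)))
        (if i + 1 ≤ a then f (i + 1) else f (i + 1 + (b - a - 1)))
      by_cases h1 : i + 1 ≤ a
      · rw [if_pos h1, if_pos (by omega)]
        exact hP i (by omega)
      · by_cases h2 : i ≤ a
        · have : i = a := by omega
          subst this
          rw [if_neg h1, if_pos (le_refl _)]
          have : i + 1 + (b - i - 1) = b := by omega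
          rw [this]
          exact hPab
        · rw [if_neg h1, if_neg h2]
          have : i + 1 + (b - a - 1) = i + (b - a - 1) + 1 := by omega
          rw [this]
          exact hP _ (by omega)
  · intro i hi
    have h1 := hle i (le_of_lt hi)
    rcases Nat.lt_or_ge (f i) l with h2 | h2
    · exact h2
    · exact absurd ⟨f, h0, by omega, fun j hj => hle j (by omega), fun j hj => hP j (by omega)⟩
        (hmin i hi)

theorem chain_dist (hG : G.Connected) {γ : List V} (hc : γ.IsChain G.Adj) (i : ℕ) :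
    ∀ (d : ℕ) (hj : i + d < γ.length),
      G.dist (γ[i]'(by omega)) (γ[i + d]'hj) ≤ d := by
  intro d
  induction d with
  | zero => intro hj; simp
  | succ d ih =>
    intro hj
    have h1 := ih (by omega)
    have h2 : G.Adj (γ[i + d]'(by omega)) (γ[i + d + 1]'(by omega)) :=
      List.isChain_iff_getElem.1 hc (i + d) (by omega)
    have h3 := dist_adj_le hG (x := γ[i]'(by omega)) h2
    have h4 : γ[i + (d + 1)]'hj = γ[i + d + 1]'(by omega) := rfl
    rw [h4]
    omega

/-- the number of points near a walk which are far apart -/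
theorem near_walk (hG : G.Connected) {γ : List V} (hc : γ.IsChain G.Adj) {n s e k : ℕ}
    (hl : γ.length = n + 1) (E : Finset ℕ) (u : ℕ → V) (hs : 1 ≤ s) (hse : s + 2 * e ≤ k)
    (hsep : ∀ a ∈ E, ∀ b ∈ E, a < b → k < G.dist (u a) (u b))
    (hE : ∀ a ∈ E, ∃ v ∈ γ, G.dist (u a) v ≤ e) : E.card ≤ n / s + 1 := by
  have hE' : ∀ a ∈ E, ∃ i : ℕ, ∃ hi : i < γ.length, G.dist (u a) (γ[i]'hi) ≤ e := by
    intro a ha
    obtain ⟨v, hv, hd⟩ := hE a ha
    obtain ⟨i, hi, rfl⟩ := List.mem_iff_getElem.1 hv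
    exact ⟨i, hi, hd⟩
  choose! ix hix hd using hE'
  have key : ∀ a ∈ E, ∀ b ∈ E, a < b → ix a / s ≠ ix b / s := by
    intro a ha b hb hab heq
    have h1 := hsep a ha b hb hab
    have h2 := hd a ha
    have h3 := hd b hb
    have hia := hix a ha
    have hib := hix b hb
    have hdiv : ix a < ix b + s ∧ ix b < ix a + s := by
      have e1 := Nat.div_add_mod (ix a) s
      have e2 := Nat.div_add_mod (ix b) s
      have m1 := Nat.mod_lt (ix a) hs
      have m2 := Nat.mod_lt (ix b) hs
      rw [heq] at e1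
      constructor <;> omega
    have h4 : G.dist (γ[ix a]'hia) (γ[ix b]'hib) ≤ s := by
      rcases Nat.le_total (ix a) (ix b) with h | h
      · obtain ⟨d, hdd⟩ := Nat.exists_eq_add_of_le h
        have h5 := chain_dist hG hc (ix a) d (by omega)
        have h6 : γ[ix b]'hib = γ[ix a + d]'(by omega) := by congr 1
        rw [h6]
        omega
      · obtain ⟨d, hdd⟩ := Nat.exists_eq_add_of_le h
        have h5 := chain_dist hG hc (ix b) d (by omega)
        have h6 : γ[ix a]'hia = γ[ix b + d]'(by omega) := by congr 1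
        rw [h6, SimpleGraph.dist_comm]
        omega
    have t1 := hG.dist_triangle (u := u a) (v := γ[ix a]'hia) (w := u b)
    have t2 := hG.dist_triangle (u := γ[ix a]'hia) (v := γ[ix b]'hib) (w := u b)
    have t3 : G.dist (γ[ix b]'hib) (u b) = G.dist (u b) (γ[ix b]'hib) := SimpleGraph.dist_comm
    omega
  have h1 : E.card ≤ (Finset.range (n / s + 1)).card := by
    apply Finset.card_le_card_of_injOn (fun a => ix a / s)
    · intro a ha
      have ha' := Finset.mem_coe.1 ha
      rw [Finset.mem_coe, Finset.mem_range]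
      have := hix a ha'
      have h2 : ix a / s ≤ n / s := Nat.div_le_div_right (by omega)
      show ix a / s < n / s + 1
      omega
    · intro a ha b hb hab
      have ha' := Finset.mem_coe.1 ha
      have hb' := Finset.mem_coe.1 hb
      rcases Nat.lt_trichotomy a b with h | h | h
      · exact absurd hab (key a ha' b hb' h)
      · exact h
      · exact absurd hab.symm (key b hb' a ha' h)
  rwa [Finset.card_range] at h1

/-- the number of points near a set with few separated points -/
theorem near_set (hG : G.Connected) {W : Finset V} {n s e k C : ℕ} (E : Finset ℕ) (u : ℕ → V)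
    (hs : 1 ≤ s) (hse : s + 2 * e ≤ k)
    (hW : ∀ (s : ℕ) (T : Finset V), T ⊆ W → (∀ u ∈ T, ∀ v ∈ T, u ≠ v → s ≤ G.dist u v) →
        s ^ 2 * T.card ≤ C * (s + 3 * n) ^ 2)
    (hsep : ∀ a ∈ E, ∀ b ∈ E, a < b → k < G.dist (u a) (u b))
    (hE : ∀ a ∈ E, ∃ v ∈ W, G.dist (u a) v ≤ e) : s ^ 2 * E.card ≤ C * (s + 3 * n) ^ 2 := by
  rcases Finset.eq_empty_or_nonempty E with h0 | ⟨a0, ha0⟩
  · rw [h0, Finset.card_empty]; omega
  obtain ⟨v0, -, -⟩ := hE a0 ha0
  have : Nonempty V := ⟨v0⟩
  choose! w hwW hd using hE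
  have key : ∀ a ∈ E, ∀ b ∈ E, a < b → s ≤ G.dist (w a) (w b) := by
    intro a ha b hb hab
    have h1 := hsep a ha b hb hab
    have h2 := hd a ha
    have h3 := hd b hb
    have t1 := hG.dist_triangle (u := u a) (v := w a) (w := u b)
    have t2 := hG.dist_triangle (u := w a) (v := w b) (w := u b)
    have t3 : G.dist (w b) (u b) = G.dist (u b) (w b) := SimpleGraph.dist_comm
    omega
  have hinj : Set.InjOn w (E : Set ℕ) := by
    intro a ha b hb hab
    have ha' := Finset.mem_coe.1 ha
    have hb' := Finset.mem_coe.1 hb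
    rcases Nat.lt_trichotomy a b with h | h | h
    · have := key a ha' b hb' h
      rw [hab, SimpleGraph.dist_self] at this
      omega
    · exact h
    · have := key b hb' a ha' h
      rw [hab, SimpleGraph.dist_self] at this
      omega
  rw [← Finset.card_image_of_injOn hinj]
  apply hW
  · intro v hv
    rw [Finset.mem_image] at hv
    obtain ⟨a, ha, rfl⟩ := hv
    exact hwW a ha
  · intro v hv v' hv' hne
    rw [Finset.mem_image] at hv hv'
    obtain ⟨a, ha, rfl⟩ := hv
    obtain ⟨b, hb, rfl⟩ := hv'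
    rcases Nat.lt_trichotomy a b with h | h | h
    · exact key a ha b hb h
    · rw [h] at hne; exact absurd rfl hne
    · rw [SimpleGraph.dist_comm]; exact key b hb a ha h

/-- some element serves half of the points -/
theorem half {B : Type} [Fintype B] [Nonempty B] (E : Finset ℕ) (R : ℕ → B → Prop)
    (h : ∀ a ∈ E, Fintype.card B ≤ 2 * (Finset.univ.filter (fun b : B => R a b)).card) :
    ∃ b : B, E.card ≤ 2 * (E.filter (fun a => R a b)).card := by
  by_contra hcon
  push Not at hcon
  have h1 : ∑ b : B, 2 * (E.filter (fun a => R a b)).card < ∑ _b : B, E.card :=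
    Finset.sum_lt_sum_of_nonempty Finset.univ_nonempty (fun b _ => hcon b)
  have h2 : ∑ a ∈ E, (Finset.univ.filter (fun b : B => R a b)).card =
      ∑ b : B, (E.filter (fun a => R a b)).card :=
    Finset.sum_card_bipartiteAbove_eq_sum_card_bipartiteBelow R
  have h3 : ∑ _a ∈ E, Fintype.card B ≤
      ∑ a ∈ E, 2 * (Finset.univ.filter (fun b : B => R a b)).card := Finset.sum_le_sum h
  rw [← Finset.mul_sum, h2, Finset.mul_sum] at h3
  rw [Finset.sum_const, Finset.card_univ, smul_eq_mul] at h1
  rw [Finset.sum_const, smul_eq_mul, mul_comm] at h3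
  exact absurd h3 (not_le.2 h1)

theorem con_st (hA : ConAStatement) : ConStatement := by
  intro V G C hCH p _ B _ _ _ hAut hp c L hLS s
  obtain ⟨K₀, hK₀⟩ := hA V G C hCH p B hAut hp c L hLS (100 * (s + 1))
  refine ⟨K₀ + 1, ?_⟩
  intro k hk x y hx hy hxy
  have hG := hCH.conn
  have hC6 : 1 ≤ C6 C s := by
    unfold C6
    have : 1 ≤ (1 + s) ^ 2 := Nat.one_le_pow _ _ (by omega)
    nlinarith
  by_cases hle : G.dist x y ≤ k
  · -- one jump
    refine ⟨fun i => if i = 0 then x else y, rfl, ?_, ?_, ?_⟩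
    · show (if C6 C s = 0 then x else y) = y
      rw [if_neg (by omega)]
    · intro i _
      show (if i = 0 then x else y) ∈ Fc G B c
      by_cases h0 : i = 0
      · rw [if_pos h0]; exact hx
      · rw [if_neg h0]; exact hy
    · intro i _
      show G.dist (if i = 0 then x else y) (if i + 1 = 0 then x else y) ≤ k
      rw [if_neg (by omega : ¬ i + 1 = 0)]
      by_cases h0 : i = 0
      · rw [if_pos h0]; exact hle
      · rw [if_neg h0, SimpleGraph.dist_self]; omega
  push Not at hle
  obtain ⟨e, l, q, γ, W, he, hγ, hγl, hq0, hql, hqF, hqe, hW, hdich⟩ := hK₀ x y hx hy (by omega)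
  generalize hn : G.dist x y = n at he hγl hxy hle hW
  have hek : 100 * e ≤ k := by
    by_contra hcon
    push Not at hcon
    have h1 : (s + 1) * k < (s + 1) * (100 * e) := (Nat.mul_lt_mul_left (by omega)).2 hcon
    nlinarith
  obtain ⟨N, f, hf0, hfN, hfl, hfk, hfar, hlt⟩ :=
    short_chain (fun i j => G.dist (q i) (q j) ≤ k) l (fun i hi => by
      have := hqe i hi
      show G.dist (q i) (q (i + 1)) ≤ k
      omega)
  set sp : ℕ := k - 2 * e with hsp
  have hsp1 : 1 ≤ sp := by omega
  have hsp2 : sp + 2 * e ≤ k := by omega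
  have hksp : k ≤ 2 * sp := by omega
  set u : ℕ → V := fun a => q (f (2 * a)) with hu
  set E : Finset ℕ := Finset.range ((N + 1) / 2) with hE
  have hEN : ∀ a ∈ E, 2 * a < N := by
    intro a ha
    rw [hE, Finset.mem_range] at ha
    omega
  have hsep : ∀ a ∈ E, ∀ b ∈ E, a < b → k < G.dist (u a) (u b) := by
    intro a _ b hb hab
    have := hfar (2 * a) (2 * b) (by omega) (le_of_lt (hEN b hb))
    exact not_le.1 this
  have hE1 : (E.filter (fun a => ∃ v ∈ γ, G.dist (u a) v ≤ e)).card ≤ n / sp + 1 := by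
    refine near_walk hG hγ.chain hγl _ u hsp1 hsp2 ?_ ?_
    · intro a ha b hb hab
      exact hsep a (Finset.mem_filter.1 ha).1 b (Finset.mem_filter.1 hb).1 hab
    · intro a ha
      exact (Finset.mem_filter.1 ha).2
  have : Nonempty B := ⟨1⟩
  obtain ⟨b, hb⟩ := half (E.filter (fun a => ¬ ∃ v ∈ γ, G.dist (u a) v ≤ e))
    (fun a b => ∃ v ∈ W b, G.dist (u a) v ≤ e) (by
      intro a ha
      rw [Finset.mem_filter] at ha
      rcases hdich (f (2 * a)) (hlt _ (hEN a ha.1)) with h | h
      · exact absurd h ha.2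
      · convert h)
  set E2 := E.filter (fun a => ¬ ∃ v ∈ γ, G.dist (u a) v ≤ e) with hE2
  have hE3 : sp ^ 2 * (E2.filter (fun a => ∃ v ∈ W b, G.dist (u a) v ≤ e)).card ≤
      C * (sp + 3 * n) ^ 2 := by
    refine near_set hG _ u hsp1 hsp2 (hW b) ?_ ?_
    · intro a ha b' hb' hab
      have ha1 := (Finset.mem_filter.1 (Finset.mem_filter.1 ha).1).1
      have hb1 := (Finset.mem_filter.1 (Finset.mem_filter.1 hb').1).1
      exact hsep a ha1 b' hb1 hab
    · intro a ha
      exact (Finset.mem_filter.1 ha).2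
  have hcard : E.card = (E.filter (fun a => ∃ v ∈ γ, G.dist (u a) v ≤ e)).card + E2.card := by
    rw [hE2]
    exact (Finset.card_filter_add_card_filter_not _).symm
  have hEc : E.card = (N + 1) / 2 := by rw [hE, Finset.card_range]
  set t := (E2.filter (fun a => ∃ v ∈ W b, G.dist (u a) v ≤ e)).card with ht
  have hb' : E2.card ≤ 2 * t := by
    rw [ht]
    convert hb
  have hsk : n ≤ 2 * s * sp := by
    calc n ≤ s * k := hxy
      _ ≤ s * (2 * sp) := Nat.mul_le_mul_left s hksp
      _ = 2 * s * sp := by ring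
  have ht1 : t ≤ C * (36 * (1 + s) ^ 2) := by
    have h1 : sp + 3 * n ≤ sp * (6 * (1 + s)) := by nlinarith
    have h2 : (sp + 3 * n) ^ 2 ≤ (sp * (6 * (1 + s))) ^ 2 := Nat.pow_le_pow_left h1 2
    have h3 : sp ^ 2 * t ≤ sp ^ 2 * (C * (36 * (1 + s) ^ 2)) := by
      calc sp ^ 2 * t ≤ C * (sp + 3 * n) ^ 2 := hE3
        _ ≤ C * (sp * (6 * (1 + s))) ^ 2 := Nat.mul_le_mul_left C h2
        _ = sp ^ 2 * (C * (36 * (1 + s) ^ 2)) := by ring
    exact Nat.le_of_mul_le_mul_left h3 (by positivity)
  have hnd : n / sp ≤ 2 * s := by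
    have : n ≤ sp * (2 * s) := by nlinarith
    exact Nat.div_le_of_le_mul this
  have hNC : N ≤ C6 C s := by
    have h1 : N ≤ 2 * E.card := by omega
    have h2 : E.card ≤ (2 * s + 1) + 2 * (C * (36 * (1 + s) ^ 2)) := by omega
    have h3 : 2 * s + 1 ≤ 2 * (1 + s) ^ 2 := by nlinarith
    unfold C6
    have h4 : 1000 * (C + 1) * (1 + s) ^ 2 = 1000 * (C * (1 + s) ^ 2) + 1000 * (1 + s) ^ 2 := by
      ring
    have h5 : C * (36 * (1 + s) ^ 2) = 36 * (C * (1 + s) ^ 2) := by ring
    rw [h4]
    rw [h5] at h2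
    omega
  -- the jumps
  refine ⟨fun i => if i ≤ N then q (f i) else y, ?_, ?_, ?_, ?_⟩
  · show (if 0 ≤ N then q (f 0) else y) = x
    rw [if_pos (Nat.zero_le _), hf0, hq0]
  · show (if C6 C s ≤ N then q (f (C6 C s)) else y) = y
    by_cases h : C6 C s ≤ N
    · have : C6 C s = N := le_antisymm h hNC
      rw [if_pos h, this, hfN, hql]
    · rw [if_neg h]
  · intro i _
    show (if i ≤ N then q (f i) else y) ∈ Fc G B c
    by_cases h : i ≤ N
    · rw [if_pos h]; exact hqF _ (hfl i h)
    · rw [if_neg h]; exact hy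
  · intro i _
    show G.dist (if i ≤ N then q (f i) else y) (if i + 1 ≤ N then q (f (i + 1)) else y) ≤ k
    by_cases h1 : i + 1 ≤ N
    · rw [if_pos h1, if_pos (by omega)]
      exact hfk i (by omega)
    · rw [if_neg h1]
      by_cases h2 : i ≤ N
      · have : i = N := by omega
        subst this
        rw [if_pos h2, hfN, hql, SimpleGraph.dist_self]
        omega
      · rw [if_neg h2, SimpleGraph.dist_self]
        omega

end MSG.F65
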