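import Pool.Agent.Lib.MP_acafa7_al.F.IfaceG

/-! THMQ (2.1): area of nonpositively curved metric discs. -/

namespace MSG.F65

open Classical

variable {D : Type}

theorem face_pred {M : DMap D} {R : List D} (h : M.IsFace R) {o : D} (ho : o ∈ R) :
    M.φ.symm o ∈ R := by
  have h1 : o ∈ R.map M.φ := by
    rw [h.2.2, List.mem_rotate]; exact ho
  obtain ⟨d, hd, rfl⟩ := List.mem_map.1 h1
  rw [Equiv.symm_apply_apply]
  exact hd

theorem tarea_nonneg {a b c : ℝ} (ha : 0 < a) (hb : 0 < b) : 0 ≤ tarea a b c := by
  unfold tarea ang
  rw [Real.sin_arccos]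
  positivity

theorem sum_nonneg' {M : DMap D} {R : List D} {ℓ : D → ℝ} (h : M.LenOK ℓ {d | d ∈ R}) :
    0 ≤ (R.map ℓ).sum := by
  apply List.sum_nonneg
  intro x hx
  obtain ⟨d, -, rfl⟩ := List.mem_map.1 hx
  exact (h.1 d).le

/-- the three inequalities for the triangle of a dart outside `R` -/
theorem tr_dart {M : DMap D} {R : List D} {ℓ : D → ℝ} (hoff : M.Off3 {d | d ∈ R})
    (hl : M.LenOK ℓ {d | d ∈ R}) {d : D} (hd : d ∉ R) : Tr (ℓ d) (ℓ (M.φ d)) (ℓ (M.φ (M.φ d))) := by
  have h3 : M.φ (M.φ (M.φ d)) = d := (hoff.2 d hd).1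
  have h1 : M.φ d ∉ R := by
    intro h
    have a1 : M.φ (M.φ d) ∈ ({d | d ∈ R} : Set D) := hoff.1 _ h
    have a2 : M.φ (M.φ (M.φ d)) ∈ ({d | d ∈ R} : Set D) := hoff.1 _ a1
    rw [h3] at a2
    exact hd a2
  have h2 : M.φ (M.φ d) ∉ R := by
    intro h
    have a2 : M.φ (M.φ (M.φ d)) ∈ ({d | d ∈ R} : Set D) := hoff.1 _ h
    rw [h3] at a2
    exact hd a2
  have e1 := hl.2.2 d hd
  have e2 := hl.2.2 _ h1
  have e3 := hl.2.2 _ h2
  rw [h3] at e2 e3
  have p0 := hl.1 d
  have p1 := hl.1 (M.φ d)
  have p2 := hl.1 (M.φ (M.φ d))
  refine ⟨?_, ?_, ?_, ?_, ?_, ?_⟩ <;> first | assumption | linarith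

theorem thmq_st (hGB : QGBStatement) (hFan : QFanStatement) (hInA : QInAStatement)
    (hInB : QInBStatement) (hHair : QHairStatement) (hEnd : QEndStatement)
    (hPush : QPushStatement) (hFA : FanAreaStatement) : ThmQStatement := by
  have main : ∀ (N : ℕ) (D : Type) [Fintype D] (M : DMap D) (R : List D) (ℓ : D → ℝ),
      Fintype.card D ≤ N → IsMD M R ℓ → Real.pi * M.area3 ℓ R ≤ 3 * ((R.map ℓ).sum) ^ 2 := by
    intro N
    induction N with
    | zero =>
      intro D _ M R ℓ hN hM
      obtain ⟨o, ho, -⟩ := hGB D M R ℓ hM
      have : IsEmpty D := Fintype.card_eq_zero_iff.1 (by omega)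
      exact (this.false o).elim
    | succ N IH =>
      intro D _ M₀ R ℓ₀ hN hM₀
      obtain ⟨o, ho₀, hgb₀⟩ := hGB D M₀ R ℓ₀ hM₀
      have inner : ∀ (n : ℕ) (M : DMap D) (ℓ : D → ℝ), M.deg o ≤ n → IsMD M R ℓ →
          DMk M R ℓ o →
          Real.pi * (ℓ (M.φ.symm o) + ℓ o) ≤ (R.map ℓ).sum * M.curv ℓ {d | d ∈ R} o →
          Real.pi * M.area3 ℓ R ≤ 3 * ((R.map ℓ).sum) ^ 2 := by
        intro n
        induction n with
        | zero =>
          intro M ℓ hdeg _ _ _
          have : 0 < M.deg o := by
            unfold DMap.deg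
            have : Nonempty {d // M.SameV o d} := ⟨⟨o, M.sameV_refl o⟩⟩
            exact Nat.card_pos
          omega
        | succ n ih =>
          intro M ℓ hdeg hM ho hgb
          have hsmall : DSmall M R ℓ o → Real.pi * M.area3 ℓ R ≤ 3 * ((R.map ℓ).sum) ^ 2 := by
            rintro ⟨M', ℓ', hM', ho', hR', hc', ha', hd'⟩
            have hpred := face_pred hM.face ho.mem
            have hφ : M'.φ (M.φ.symm o) = o := by
              rw [(hR' _ hpred).2, Equiv.apply_symm_apply]
            have hφ' : M'.φ.symm o = M.φ.symm o := by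
              rw [Equiv.symm_apply_eq, hφ]
            have hmap : R.map ℓ' = R.map ℓ := List.map_congr_left (fun d hd => (hR' d hd).1)
            have := ih M' ℓ' (by omega) hM' ho' (by
              rw [hφ', (hR' _ hpred).1, (hR' _ ho.mem).1, hmap, hc']
              exact hgb)
            rw [ha', hmap] at this
            exact this
          obtain ⟨k, s, hF⟩ := hFan D M R ℓ o hM ho
          rcases Nat.eq_zero_or_pos k with hk | hk
          · subst hk
            have hs0 : s 0 = o := hF.last
            have hz : M.φ (M.ι o) = o := by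
              have := hF.zero
              rwa [hs0] at this
            by_cases he : M.φ o = M.ι o
            · rw [hEnd D M R ℓ o hM ho.mem hz he, mul_zero]
              positivity
            · obtain ⟨D', _, M', R', ℓ', hM', ha', hL', hc'⟩ := hHair D M R ℓ o hM ho hz he
              have h1 := IH D' M' R' ℓ' (by omega) hM'
              rw [ha'] at h1
              have h2 := sum_nonneg' hM'.lenok
              nlinarith
          · by_cases hloop : ∃ j, 0 < j ∧ j < k ∧ M.SameV o (M.ι (s j))
            · obtain ⟨j, h1, h2, h3⟩ := hloop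
              exact hsmall (hInA D M R ℓ o k s hM ho hF j h1 h2 h3)
            have hno : ∀ j, j ≤ k → ¬ M.SameV o (M.ι (s j)) := by
              intro j hj hs
              rcases Nat.eq_zero_or_pos j with h0 | h0
              · subst h0; exact hF.end0 hs
              · rcases Nat.lt_or_ge j k with h1 | h1
                · exact hloop ⟨j, h0, h1, hs⟩
                · have : j = k := le_antisymm hj h1
                  subst this
                  exact hF.endk hs
            by_cases hbad : ∃ j, 0 < j ∧ j < k ∧ M.th ℓ (M.ι (s j)) + M.th ℓ (M.φ (s j)) < Real.pi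
            · obtain ⟨j, h1, h2, h3⟩ := hbad
              exact hsmall (hInB D M R ℓ o k s hM ho hF hno j h1 h2 h3)
            push Not at hbad
            obtain ⟨D', _, M', R', ℓ', hM', hc', hL', ha'⟩ :=
              hPush D M R ℓ o k s hM ho hF hk hno
            have hIH := IH D' M' R' ℓ' (by omega) hM'
            have hpos := hM.lenok.1
            have hsym := hM.lenok.2.1
            -- the fan
            have hnx : ∀ j, j < k → ℓ (s (j + 1)) = ℓ (M.φ (M.φ (s j))) := by
              intro j hj
              rw [hF.next j hj, hsym]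
            have hth : ∀ j, j < k →
                M.th ℓ (s j) = ang (ℓ (s j)) (ℓ (s (j + 1))) (ℓ (M.φ (s j))) := by
              intro j hj
              unfold DMap.th
              rw [hnx j hj]
            have hfa := hFA k (fun j => ℓ (s j)) (fun j => ℓ (M.φ (s j))) hk
              (by
                intro j hj
                show Tr (ℓ (s j)) (ℓ (M.φ (s j))) (ℓ (s (j + 1)))
                rw [hnx j hj]
                exact tr_dart hM.off hM.lenok (hF.tri j hj))
              (by
                intro j hj
                have h1 := hbad (j + 1) (by omega) hj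
                have h3 : M.φ (M.φ (M.φ (s j))) = s j := (hM.off.2 _ (hF.tri j (by omega))).1
                have h4 : M.φ (M.φ (M.φ (s (j + 1)))) = s (j + 1) :=
                  (hM.off.2 _ (hF.tri (j + 1) hj)).1
                have e1 : M.ι (s (j + 1)) = M.φ (M.φ (s j)) := by
                  rw [hF.next j (by omega), M.ιι]
                have e2 : M.th ℓ (M.ι (s (j + 1))) =
                    ang (ℓ (s (j + 1))) (ℓ (M.φ (s j))) (ℓ (s j)) := by
                  unfold DMap.th
                  rw [hsym, e1, h3]
                have e3 : M.th ℓ (M.φ (s (j + 1))) =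
                    ang (ℓ (M.φ (s (j + 1)))) (ℓ (s (j + 1))) (ℓ (s (j + 2))) := by
                  unfold DMap.th
                  rw [h4, hnx (j + 1) hj]
                rw [e2, e3] at h1
                exact h1)
              (by
                have h1 := ho.curv
                rw [hF.curv] at h1
                have h2 : ∑ j ∈ Finset.range k, ang (ℓ (s j)) (ℓ (s (j + 1))) (ℓ (M.φ (s j))) =
                    ∑ j ∈ Finset.range k, M.th ℓ (s j) :=
                  Finset.sum_congr rfl (fun j hj => (hth j (Finset.mem_range.1 hj)).symm)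
                show ∑ j ∈ Finset.range k, ang (ℓ (s j)) (ℓ (s (j + 1))) (ℓ (M.φ (s j))) < Real.pi
                rw [h2]
                linarith)
            have hsumth : ∑ j ∈ Finset.range k, ang (ℓ (s j)) (ℓ (s (j + 1))) (ℓ (M.φ (s j))) =
                ∑ j ∈ Finset.range k, M.th ℓ (s j) :=
              Finset.sum_congr rfl (fun j hj => (hth j (Finset.mem_range.1 hj)).symm)
            have hfa' : (Real.pi - ∑ j ∈ Finset.range k, M.th ℓ (s j)) *
                ∑ j ∈ Finset.range k, tarea (ℓ (s j)) (ℓ (s (j + 1))) (ℓ (M.φ (s j))) ≤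
                (ℓ (s 0) + ℓ (s k)) * (ℓ (s 0) + ℓ (s k) - ∑ j ∈ Finset.range k, ℓ (M.φ (s j))) := by
              rw [← hsumth]
              exact hfa
            rw [← hF.curv] at hfa'
            have hA0 : 0 ≤ ∑ j ∈ Finset.range k, tarea (ℓ (s j)) (ℓ (s (j + 1))) (ℓ (M.φ (s j))) :=
              Finset.sum_nonneg (fun j _ => tarea_nonneg (hpos _) (hpos _))
            have hi : M.φ.symm o = M.ι (s 0) := by
              rw [Equiv.symm_apply_eq, hF.zero]
            have hgb' : Real.pi * (ℓ (s 0) + ℓ (s k)) ≤
                (R.map ℓ).sum * M.curv ℓ {d | d ∈ R} o := by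
              rw [hi, hsym] at hgb
              rw [hF.last]
              exact hgb
            have hτ := ho.curv
            have hr : 0 < ℓ (s 0) + ℓ (s k) := add_pos (hpos _) (hpos _)
            have hLn := sum_nonneg' hM.lenok
            have hLn' := sum_nonneg' hM'.lenok
            rw [ha']
            generalize M.curv ℓ {d | d ∈ R} o = τ at *
            generalize ∑ j ∈ Finset.range k, tarea (ℓ (s j)) (ℓ (s (j + 1))) (ℓ (M.φ (s j))) = A at *
            generalize ∑ j ∈ Finset.range k, ℓ (M.φ (s j)) = cc at *
            generalize M'.area3 ℓ' R' = A' at *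
            generalize (R'.map ℓ').sum = L' at *
            generalize (R.map ℓ).sum = L at *
            generalize ℓ (s 0) + ℓ (s k) = r at *
            have hπ := Real.pi_pos
            have hΔ : 0 ≤ r - cc := by
              by_contra hcon
              push Not at hcon
              have h1 : r * (r - cc) < 0 := mul_neg_of_pos_of_neg hr hcon
              have h2 : 0 ≤ τ * A := mul_nonneg hτ.le hA0
              linarith
            have h1 : τ * (Real.pi * A) ≤ τ * (L * (r - cc)) := by
              calc τ * (Real.pi * A) = Real.pi * (τ * A) := by ring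
                _ ≤ Real.pi * (r * (r - cc)) := mul_le_mul_of_nonneg_left hfa' hπ.le
                _ = (Real.pi * r) * (r - cc) := by ring
                _ ≤ (L * τ) * (r - cc) := mul_le_mul_of_nonneg_right hgb' hΔ
                _ = τ * (L * (r - cc)) := by ring
            have h2 : Real.pi * A ≤ L * (r - cc) := le_of_mul_le_mul_left h1 hτ
            have h3 : L' = L - (r - cc) := by rw [hL']; ring
            have h4 : r - cc ≤ L := by linarith
            calc Real.pi * (A' + 3 * A) = Real.pi * A' + 3 * (Real.pi * A) := by ring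
              _ ≤ 3 * L' ^ 2 + 3 * (L * (r - cc)) := by linarith
              _ = 3 * L ^ 2 - 3 * ((r - cc) * (L - (r - cc))) := by rw [h3]; ring
              _ ≤ 3 * L ^ 2 := by nlinarith
      exact inner _ M₀ ℓ₀ le_rfl hM₀ ho₀ hgb₀
  intro D _ M R ℓ hM
  exact main _ D M R ℓ le_rfl hM

end MSG.F65
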