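import Pool.Agent.Lib.MP_acafa7_al.F.IfaceC

/-! TKU: uniqueness of the weight of a homotopy, from the sphere property. -/

namespace MSG.F65

open Classical

variable {V : Type} {G : SimpleGraph V}

theorem isW_reverse {x y : V} {l : List V} (h : IsW G x y l) : IsW G y x l.reverse := by
  refine ⟨?_, ?_, ?_⟩
  · have hsw : (fun a b => G.Adj b a) = G.Adj := by
      funext a b
      exact propext ⟨fun h => h.symm, fun h => h.symm⟩
    rw [List.isChain_reverse, hsw]
    exact h.chain
  · rw [List.head?_reverse]; exact h.last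
  · rw [List.getLast?_reverse]; exact h.first

theorem mem_cat {l m : List V} {v : V} (h : v ∈ cat l m) : v ∈ l ∨ v ∈ m := by
  rw [cat, List.mem_append] at h
  rcases h with h | h
  · exact Or.inl h
  · exact Or.inr (List.mem_of_mem_tail h)

theorem tku_st (hA : HAlgStatement) : TkUStatement := by
  intro V A _ G S ω hs x y l l' e e' hl hS h1 h2
  obtain ⟨htr, -, hsy, -, -, -, -, hrev, -, -, -, hcr⟩ := hA V A G S ω
  have hr := isW_reverse hl
  have hx : x ∈ S := by
    apply hS
    have := hl.first
    exact List.mem_of_mem_head? this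
  have hmem : ∀ v ∈ cat l l.reverse, v ∈ S := by
    intro v hv
    rcases mem_cat hv with h | h
    · exact hS v h
    · exact hS v (List.mem_reverse.1 h)
  have a1 := hrev l x y hl hS
  have a2 := (hsy _ _ _ hmem a1).2
  have b1 := hcr x y x l l' l.reverse e hl hr h1
  have b2 := hcr x y x l l' l.reverse e' hl hr h2
  have b3 := (hsy _ _ _ hmem b2).2
  have c := htr _ _ _ _ _ a2 (htr _ _ _ _ _ b1 (htr _ _ _ _ _ b3 a1))
  have d := hs x _ hx c
  have : e - e' = 0 := by simpa [sub_eq_add_neg] using d
  exact sub_eq_zero.1 this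

end MSG.F65
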