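import Pool.Agent.Lib.MP_acafa7_al.F.H65.Dst

/-! CMAP2: coarse map with variable scale for a finite group. -/

namespace MSG.F65

open Classical

variable {V : Type} {G : SimpleGraph V} {H : Type} [Group H] [MulAction H V]

/-- adjacent vertices of `S` of the same colour -/
def Er (G : SimpleGraph V) (S : Finset V) (col : V → ℕ) (u v : {y // y ∈ S}) : Prop :=
  G.Adj u.1 v.1 ∧ col u.1 = col v.1

/-- components of the colour classes -/
def Es (G : SimpleGraph V) (S : Finset V) (col : V → ℕ) : Setoid {y // y ∈ S} where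
  r := Relation.ReflTransGen (Er G S col)
  iseqv := ⟨fun _ => Relation.ReflTransGen.refl,
    fun {_ _} h => (@Relation.ReflTransGen.stdSymm _ (Er G S col)
      ⟨fun _ _ h => ⟨h.1.symm, h.2.symm⟩⟩).symm _ _ h,
    fun {_ _ _} h1 h2 => h1.trans h2⟩

theorem Er.smul {S : Finset V} {col : V → ℕ} (hA : Aut G H) (hS : ∀ (h : H), ∀ x ∈ S, h • x ∈ S)
    (hc : ∀ (h : H), ∀ x ∈ S, col (h • x) = col x) (h : H) {u v : {y // y ∈ S}}
    (e : Er G S col u v) : Er G S col ⟨h • u.1, hS h u.1 u.2⟩ ⟨h • v.1, hS h v.1 v.2⟩ := by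
  refine ⟨(hA h _ _).2 e.1, ?_⟩
  show col (h • u.1) = col (h • v.1)
  rw [hc h u.1 u.2, hc h v.1 v.2, e.2]

/-- the action on the components -/
@[reducible] def actQ {S : Finset V} {col : V → ℕ} (hA : Aut G H)
    (hS : ∀ (h : H), ∀ x ∈ S, h • x ∈ S)
    (hc : ∀ (h : H), ∀ x ∈ S, col (h • x) = col x) : MulAction H (Quotient (Es G S col)) where
  smul h := Quotient.map (fun y => ⟨h • y.1, hS h y.1 y.2⟩)
    (fun _ _ hab => Relation.ReflTransGen.lift (fun y : {y // y ∈ S} =>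
      (⟨h • y.1, hS h y.1 y.2⟩ : {y // y ∈ S})) (fun _ _ e => Er.smul hA hS hc h e) _ _ hab)
  one_smul := by
    intro b
    induction b using Quotient.inductionOn with
    | h y =>
      apply congrArg (Quotient.mk (Es G S col))
      exact Subtype.ext (one_smul H y.1)
  mul_smul := by
    intro g g' b
    induction b using Quotient.inductionOn with
    | h y =>
      apply congrArg (Quotient.mk (Es G S col))
      exact Subtype.ext (mul_smul g g' y.1)

theorem four_pigeon (a b c d : Fin 3) : a = b ∨ a = c ∨ a = d ∨ b = c ∨ b = d ∨ c = d := by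
  revert a b c d
  decide

theorem cmap2_st (hcol : ColStatement) (hcos : CosetStatement) : CMap2Statement := by
  intro V G hG H _ _ _ hA S T r₀ hr₀ hSne hS hTS hrep huniq
  -- representatives
  choose! rp hrpT gg hgg using hrep
  have hrp_smul : ∀ (h : H), ∀ y ∈ S, rp (h • y) = rp y := by
    intro h y hy
    have h1 := hgg y hy
    have h2 := hgg (h • y) (hS h y hy)
    refine (huniq (rp y) (hrpT y hy) (rp (h • y)) (hrpT _ (hS h y hy))
      ((gg (h • y))⁻¹ * h * gg y) ?_).symm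
    rw [mul_smul, mul_smul, ← h1, eq_inv_smul_iff, ← h2]
  have hdrp : ∀ (x : V), ∀ y ∈ S, dH G H x (rp y) = dH G H x y := by
    intro x y hy
    conv_rhs => rw [hgg y hy]
    rw [dH_smul_right]
  -- the radii
  have hex : ∀ x : V, ∃ ρ : ℕ, r₀ ≤ ρ ∧ 40 * (T.filter (fun y => dH G H x y ≤ ρ)).card ≤ ρ ^ 3 := by
    intro x
    refine ⟨r₀ + 40 * T.card, Nat.le_add_right _ _, ?_⟩
    have h1 : (T.filter (fun y => dH G H x y ≤ r₀ + 40 * T.card)).card ≤ T.card :=
      Finset.card_filter_le _ _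
    calc 40 * (T.filter (fun y => dH G H x y ≤ r₀ + 40 * T.card)).card ≤ r₀ + 40 * T.card := by
          omega
      _ ≤ (r₀ + 40 * T.card) ^ 3 := Nat.le_self_pow (by norm_num) _
  let ρ : V → ℕ := fun x => Nat.find (hex x)
  have hρ1 : ∀ x, r₀ ≤ ρ x := fun x => (Nat.find_spec (hex x)).1
  have hρ2 : ∀ x, 40 * (T.filter (fun y => dH G H x y ≤ ρ x)).card ≤ (ρ x) ^ 3 :=
    fun x => (Nat.find_spec (hex x)).2
  have hρ3 : ∀ x, r₀ < ρ x →
      (ρ x - 1) ^ 3 < 40 * (T.filter (fun y => dH G H x y ≤ ρ x - 1)).card := by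
    intro x hx
    have h1 : ρ x - 1 < ρ x := by omega
    have h2 := Nat.find_min (hex x) h1
    rw [not_and] at h2
    exact not_le.1 (h2 (by omega))
  -- the colouring
  obtain ⟨cl, hcl⟩ := hcol {x // x ∈ T} (fun x y => ∃ h : H, G.Adj x.1 (h • y.1))
    (fun x y => dH G H x.1 y.1) (fun x => ρ x.1)
    (by
      rintro x y ⟨h, hh⟩
      refine ⟨h⁻¹, ?_⟩
      have := (hA h⁻¹ _ _).2 hh
      rw [inv_smul_smul] at this
      exact this.symm)
    (fun x => dH_self x.1)
    (fun x y z ⟨h, hh⟩ => dH_step hG hA h hh)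
    (fun x => le_trans hr₀ (hρ1 x.1))
    (by
      intro x
      refine le_trans (Nat.mul_le_mul_left 40 ?_) (hρ2 x.1)
      rw [← Finset.card_map (Function.Embedding.subtype (fun x => x ∈ T))]
      apply Finset.card_le_card
      intro y hy
      rw [Finset.mem_map] at hy
      obtain ⟨z, hz, rfl⟩ := hy
      rw [Finset.mem_filter] at hz ⊢
      exact ⟨z.2, hz.2⟩)
  choose ctr hctr using hcl
  let col : V → ℕ := fun y => if hy : y ∈ S then ((cl ⟨rp y, hrpT y hy⟩ : Fin 3) : ℕ) else 0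
  have hcolS : ∀ y (hy : y ∈ S), col y = ((cl ⟨rp y, hrpT y hy⟩ : Fin 3) : ℕ) :=
    fun y hy => dif_pos hy
  have hc : ∀ (h : H), ∀ x ∈ S, col (h • x) = col x := by
    intro h x hx
    rw [hcolS x hx, hcolS _ (hS h x hx)]
    congr 2
    exact Subtype.ext (hrp_smul h x hx)
  let act := actQ (S := S) (col := col) hA hS hc
  have : Finite (Quotient (Es G S col)) := Quotient.finite _
  let fty : Fintype (Quotient (Es G S col)) := Fintype.ofFinite _
  obtain ⟨y₀, hy₀⟩ := hSne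
  let π : V → Quotient (Es G S col) := fun y =>
    if hy : y ∈ S then Quotient.mk _ ⟨y, hy⟩ else Quotient.mk _ ⟨y₀, hy₀⟩
  have hπ : ∀ y (hy : y ∈ S), π y = Quotient.mk _ ⟨y, hy⟩ := fun y hy => dif_pos hy
  -- colours of the components
  let c : Quotient (Es G S col) → ℕ := Quotient.lift (fun y => col y.1) (by
    intro a b hab
    have hab' : Relation.ReflTransGen (Er G S col) a b := hab
    induction hab' with
    | refl => rfl
    | tail h1 h2 ih => exact (ih h1).trans h2.2)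
  have hcπ : ∀ y ∈ S, c (π y) = col y := by
    intro y hy
    rw [hπ y hy]
    rfl
  have hsur : ∀ v : Quotient (Es G S col), ∃ x, ∃ hx : x ∈ S, Quotient.mk _ ⟨x, hx⟩ = v := by
    intro v
    refine ⟨(Quotient.out v).1, (Quotient.out v).2, ?_⟩
    exact Quotient.out_eq v
  have hsmul : ∀ (h : H) x (hx : x ∈ S), h • (Quotient.mk (Es G S col) ⟨x, hx⟩) =
      Quotient.mk _ ⟨h • x, hS h x hx⟩ := fun h x hx => rfl
  let ct : Quotient (Es G S col) → V := fun v =>
    (ctr ⟨rp (Quotient.out v).1, hrpT _ (Quotient.out v).2⟩).1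
  have hctT : ∀ v, ct v ∈ T := fun v => (ctr ⟨rp (Quotient.out v).1, hrpT _ (Quotient.out v).2⟩).2
  -- paths of representatives
  have hpath : ∀ a b : {y // y ∈ S}, Relation.ReflTransGen (Er G S col) a b →
      Relation.ReflTransGen (fun u v : {x // x ∈ T} => (∃ h : H, G.Adj u.1 (h • v.1)) ∧ cl u = cl v)
        ⟨rp a.1, hrpT _ a.2⟩ ⟨rp b.1, hrpT _ b.2⟩ := by
    intro a b hab
    refine Relation.ReflTransGen.lift (fun y : {y // y ∈ S} =>
      (⟨rp y.1, hrpT _ y.2⟩ : {x // x ∈ T})) ?_ _ _ hab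
    rintro u v ⟨h1, h2⟩
    refine ⟨⟨(gg u.1)⁻¹ * gg v.1, ?_⟩, ?_⟩
    · have e1 := hgg u.1 u.2
      have e2 := hgg v.1 v.2
      have := (hA (gg u.1)⁻¹ _ _).2 h1
      show G.Adj (rp u.1) (((gg u.1)⁻¹ * gg v.1) • rp v.1)
      rw [mul_smul, ← e2]
      have e3 : rp u.1 = (gg u.1)⁻¹ • u.1 := by
        rw [eq_inv_smul_iff, ← e1]
      rw [e3]
      exact this
    · rw [hcolS u.1 u.2, hcolS v.1 v.2] at h2
      exact Fin.val_injective h2
  have hnear : ∀ y ∈ S, dH G H (ct (π y)) y ≤ ρ (ct (π y)) := by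
    intro y hy
    have h1 : Relation.ReflTransGen (Er G S col) (Quotient.out (π y)) ⟨y, hy⟩ := by
      have : Quotient.mk (Es G S col) (Quotient.out (π y)) = Quotient.mk _ ⟨y, hy⟩ := by
        rw [Quotient.out_eq, hπ y hy]
      exact Quotient.exact this
    have h2 := hctr _ _ (hpath _ _ h1)
    rw [← hdrp _ y hy]
    exact h2
  refine ⟨ρ, Quotient (Es G S col), fty, act, π, c, ct, ?_, ?_, hctT, hnear,
    fun x _ => ⟨hρ1 x, hρ3 x⟩, ?_⟩
  · refine ⟨?_, ?_, ?_, ?_, ?_⟩
    · intro b x hx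
      exact Finset.mem_coe.2 (hS b x (Finset.mem_coe.1 hx))
    · intro b x hx
      have hx' := Finset.mem_coe.1 hx
      rw [hπ x hx', hπ _ (hS b x hx')]
      exact (hsmul b x hx').symm
    · intro b v
      obtain ⟨x, hx, rfl⟩ := hsur v
      rw [hsmul]
      exact hc b x hx
    · intro x hx y hy hxy
      have hx' := Finset.mem_coe.1 hx
      have hy' := Finset.mem_coe.1 hy
      by_cases h : c (π x) = c (π y)
      · left
        rw [hcπ x hx', hcπ y hy'] at h
        rw [hπ x hx', hπ y hy']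
        apply Quotient.sound
        exact Relation.ReflTransGen.single ⟨hxy, h⟩
      · exact Or.inr h
    · intro x hx y hy z hz t ht hxy hxz hxt hyz hyt hzt
      have hx' := Finset.mem_coe.1 hx
      have hy' := Finset.mem_coe.1 hy
      have hz' := Finset.mem_coe.1 hz
      have ht' := Finset.mem_coe.1 ht
      have key : ∀ u v (hu : u ∈ S) (hv : v ∈ S), G.Adj u v →
          cl ⟨rp u, hrpT u hu⟩ = cl ⟨rp v, hrpT v hv⟩ → π u = π v := by
        intro u v hu hv huv h
        rw [hπ u hu, hπ v hv]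
        apply Quotient.sound
        refine Relation.ReflTransGen.single ⟨huv, ?_⟩
        show col u = col v
        rw [hcolS u hu, hcolS v hv, h]
      rcases four_pigeon (cl ⟨rp x, hrpT x hx'⟩) (cl ⟨rp y, hrpT y hy'⟩) (cl ⟨rp z, hrpT z hz'⟩)
        (cl ⟨rp t, hrpT t ht'⟩) with h | h | h | h | h | h
      · exact Or.inl (key x y hx' hy' hxy h)
      · exact Or.inr (Or.inl (key x z hx' hz' hxz h))
      · exact Or.inr (Or.inr (Or.inl (key x t hx' ht' hxt h)))
      · exact Or.inr (Or.inr (Or.inr (Or.inl (key y z hy' hz' hyz h))))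
      · exact Or.inr (Or.inr (Or.inr (Or.inr (Or.inl (key y t hy' ht' hyt h)))))
      · exact Or.inr (Or.inr (Or.inr (Or.inr (Or.inr (key z t hz' ht' hzt h)))))
  · intro v
    obtain ⟨x, hx, rfl⟩ := hsur v
    exact ⟨x, hx, hπ x hx⟩
  · intro v hv
    obtain ⟨x₁, hx₁, hx₁v⟩ := hsur v
    refine (hcos V G hG H hA {y | y ∈ S ∧ π y = v} (ct v) (ρ (ct v)) ?_ ?_).2 ?_ ?_
    · rintro y ⟨hy, hyv⟩ y' ⟨hy', hyv'⟩
      have h1 : Relation.ReflTransGen (Er G S col) ⟨y, hy⟩ ⟨y', hy'⟩ := by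
        have : Quotient.mk (Es G S col) ⟨y, hy⟩ = Quotient.mk _ ⟨y', hy'⟩ := by
          rw [← hπ y hy, ← hπ y' hy', hyv, hyv']
        exact Quotient.exact this
      have h2 : ∀ b : {y // y ∈ S}, Relation.ReflTransGen (Er G S col) ⟨y, hy⟩ b →
          π b.1 = v ∧ Relation.ReflTransGen (fun u w => u ∈ {y | y ∈ S ∧ π y = v} ∧
            w ∈ {y | y ∈ S ∧ π y = v} ∧ G.Adj u w) y b.1 := by
        intro b hb
        induction hb with
        | refl => exact ⟨hyv, Relation.ReflTransGen.refl⟩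
        | @tail b c hb hbc ih =>
          have e : π c.1 = π b.1 := by
            rw [hπ c.1 c.2, hπ b.1 b.2]
            exact (Quotient.sound (Relation.ReflTransGen.single hbc)).symm
          refine ⟨e.trans ih.1, ih.2.tail ⟨⟨b.2, ih.1⟩, ⟨c.2, e.trans ih.1⟩, hbc.1⟩⟩
      exact (h2 _ h1).2
    · rintro y ⟨hy, hyv⟩
      have h1 := hnear y hy
      rw [hyv] at h1
      obtain ⟨h, hh⟩ := dH_spec G H (ct v) y
      refine ⟨h⁻¹, ?_⟩
      rw [← dist_smul hG hA h, smul_inv_smul, SimpleGraph.dist_comm, hh]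
      exact h1
    · rintro b y ⟨hy, hyv⟩
      refine ⟨hS b y hy, ?_⟩
      rw [hπ _ (hS b y hy), ← hsmul b y hy, ← hπ y hy, hyv, hv b]
    · exact ⟨x₁, hx₁, (hπ x₁ hx₁).trans hx₁v⟩

end MSG.F65
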