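import Pool.Agent.Lib.MP_acafa7_al.F.IfaceC

/-! Distances, automorphisms, the orbit distance dH. -/

namespace MSG.F65

open Classical

variable {V : Type} {G : SimpleGraph V} {H : Type} [Group H] [MulAction H V]

theorem dist_smul_le (hG : G.Connected) (hA : Aut G H) (h : H) (x y : V) :
    G.dist (h • x) (h • y) ≤ G.dist x y := by
  obtain ⟨p, hp⟩ := hG.exists_walk_length_eq_dist x y
  let f : G →g G := ⟨fun v => h • v, fun {a b} hab => (hA h a b).2 hab⟩
  have := SimpleGraph.dist_le (p.map f)
  rw [SimpleGraph.Walk.length_map, hp] at this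
  exact this

theorem dist_smul (hG : G.Connected) (hA : Aut G H) (h : H) (x y : V) :
    G.dist (h • x) (h • y) = G.dist x y := by
  refine le_antisymm (dist_smul_le hG hA h x y) ?_
  have := dist_smul_le hG hA h⁻¹ (h • x) (h • y)
  rwa [inv_smul_smul, inv_smul_smul] at this

theorem dist_smul_left (hG : G.Connected) (hA : Aut G H) (h : H) (x y : V) :
    G.dist (h • x) y = G.dist x (h⁻¹ • y) := by
  rw [← dist_smul hG hA h x (h⁻¹ • y), smul_inv_smul]

theorem dist_adj_le (hG : G.Connected) {x y z : V} (h : G.Adj y z) :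
    G.dist x z ≤ G.dist x y + 1 := by
  have h1 := hG.dist_triangle (u := x) (v := y) (w := z)
  have h2 := SimpleGraph.dist_eq_one_iff_adj.2 h
  omega

theorem dH_spec (G : SimpleGraph V) (H : Type) [Group H] [MulAction H V] (x y : V) :
    ∃ h : H, G.dist x (h • y) = dH G H x y := by
  have : (dH G H x y) ∈ {n | ∃ h : H, G.dist x (h • y) = n} :=
    Nat.sInf_mem ⟨_, 1, rfl⟩
  exact this

theorem dH_le (x y : V) (h : H) : dH G H x y ≤ G.dist x (h • y) := Nat.sInf_le ⟨h, rfl⟩

theorem dH_self (x : V) : dH G H x x = 0 := by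
  have := dH_le (G := G) x x (1 : H)
  rw [one_smul, SimpleGraph.dist_self] at this
  omega

theorem dH_smul_right (x y : V) (g : H) : dH G H x (g • y) = dH G H x y := by
  apply le_antisymm
  · obtain ⟨h, hh⟩ := dH_spec G H x y
    have := dH_le (G := G) x (g • y) (h * g⁻¹)
    rw [mul_smul, inv_smul_smul, hh] at this
    exact this
  · obtain ⟨h, hh⟩ := dH_spec G H x (g • y)
    have := dH_le (G := G) x y (h * g)
    rw [mul_smul, hh] at this
    exact this

theorem dH_smul_left (hG : G.Connected) (hA : Aut G H) (x y : V) (g : H) :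
    dH G H (g • x) y = dH G H x y := by
  apply le_antisymm
  · obtain ⟨h, hh⟩ := dH_spec G H x y
    have := dH_le (G := G) (g • x) y (g * h)
    rw [mul_smul, dist_smul hG hA, hh] at this
    exact this
  · obtain ⟨h, hh⟩ := dH_spec G H (g • x) y
    have := dH_le (G := G) x y (g⁻¹ * h)
    rw [mul_smul, ← dist_smul_left hG hA, hh] at this
    exact this

theorem dH_comm (hG : G.Connected) (hA : Aut G H) (x y : V) : dH G H x y = dH G H y x := by
  have key : ∀ x y : V, dH G H x y ≤ dH G H y x := by
    intro x y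
    obtain ⟨h, hh⟩ := dH_spec G H y x
    have := dH_le (G := G) x y h⁻¹
    rw [← dist_smul_left hG hA, SimpleGraph.dist_comm, hh] at this
    exact this
  exact le_antisymm (key x y) (key y x)

theorem dH_triangle (hG : G.Connected) (hA : Aut G H) (x y z : V) :
    dH G H x z ≤ dH G H x y + dH G H y z := by
  obtain ⟨h, hh⟩ := dH_spec G H x y
  obtain ⟨g, hg⟩ := dH_spec G H y z
  have h1 := dH_le (G := G) x z (h * g)
  have h2 := hG.dist_triangle (u := x) (v := h • y) (w := (h * g) • z)
  rw [mul_smul, dist_smul hG hA] at h2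
  rw [mul_smul] at h1
  omega

theorem dH_step (hG : G.Connected) (hA : Aut G H) {x y z : V} (g : H) (h : G.Adj y (g • z)) :
    dH G H x z ≤ dH G H x y + 1 := by
  obtain ⟨k, hk⟩ := dH_spec G H x y
  have h1 := dH_le (G := G) x z (k * g)
  rw [mul_smul] at h1
  have h2 := dist_adj_le hG (x := x) ((hA k y (g • z)).2 h)
  omega

end MSG.F65
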